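import Pool.Agent.H33R2.ThmC2
import Pool.Agent.H33R2.V3

set_option autoImplicit false

namespace Pool.Agent.Results.MP_e9d732_al.CyclicPart

/-- Proper solutions over a Hilbertian field `K` containing an ample field `k` of characteristic
`0` (ample: existentially closed in `k((t))`) with a primitive root of unity of order `exp(G)`:
every finite embedding problem `α : G → Gal(L/K)` for which there is a normal subgroup `C` of `G`
with `C ∩ ker α = 1` and `G / (C · ker α)` cyclic has a proper solution. -/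
theorem result (k K L G : Type) [Field k] [CharZero k] [Field K] [Algebra k K] [Field L]
    [Algebra K L] [FiniteDimensional K L] [IsGalois K L] [Group G] [Finite G]
    (hk : ∀ (n : ℕ) (s : Finset (MvPolynomial (Fin n) k)),
      (∃ x : Fin n → LaurentSeries k, ∀ p ∈ s, MvPolynomial.aeval x p = 0) →
      ∃ y : Fin n → k, ∀ p ∈ s, MvPolynomial.eval y p = 0)
    (hHilb : ∀ (f : Polynomial (Polynomial K)), f.Monic → Irreducible f →
          (f.map (algebraMap (Polynomial K) (FractionRing (Polynomial K)))).Separable →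
          ∀ g : Polynomial K, g ≠ 0 →
            ∃ a : K, g.eval a ≠ 0 ∧ Irreducible (f.map (Polynomial.evalRingHom a)))
    (ζ : k) (hζ : IsPrimitiveRoot ζ (Monoid.exponent G))
    (α : G →* (L ≃ₐ[K] L)) (hα : Function.Surjective α)
    (C : Subgroup G) [C.Normal] (hC : C ⊓ α.ker = ⊥) (hcyc : IsCyclic (G ⧸ (C ⊔ α.ker))) :
    ∃ (F : Type) (_ : Field F) (_ : Algebra K F) (_ : Algebra L F)
          (_ : IsScalarTower K L F),
          FiniteDimensional K F ∧ IsGalois K F ∧
          ∃ γ : (F ≃ₐ[K] F) ≃* G, ∀ σ : F ≃ₐ[K] F, α (γ σ) = σ.restrictNormal L := by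
  obtain ⟨F, h1, h2, h3, h4, h5, h6, h7, h8, γ, h9, -⟩ :=
    H33.thmC k K L G hk hζ α hα C hC hcyc
  exact H33.hilbert_spec K hHilb L G α ⟨F, h1, h2, h3, h4, h5, h6, h7, h8, γ, h9⟩

end Pool.Agent.Results.MP_e9d732_al.CyclicPart
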