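import Pool.Agent.H33R3.Main

set_option autoImplicit false

namespace Pool.Agent.Results.MP_e9d732_al.PerfectReductionHilb

open H33R3

/-- Let `k` be a field of characteristic `0` and `𝒞` a class of groups closed under subgroups and
finite direct powers (for instance all groups, solvable groups, or `p`-groups).  Then the following
are equivalent.
(1) Over every Hilbertian field containing `k` every finite split embedding problem with kernel in
`𝒞` has a proper solution.
(2) The same only for the problems `G → Gal(L/K)` with `G` perfect and generated by a conjugacy
class of involutions.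
(3) Over the fields `k(t_1, …, t_n)`, `n ≥ 1`, every finite split embedding problem with kernel in
`𝒞` has a proper solution.
(4) For every `n ≥ 5` and every split surjection `β : T → A_n` of finite groups with kernel in `𝒞`
and `T` as in (2) the embedding problem given by `β` and the extension
`k(x_1, …, x_n) / k(x_1, …, x_n)^{A_n}` has a solution.
(5) Over every field containing `k` every finite split embedding problem with kernel in `𝒞` has a
regular solution. -/
theorem result (k : Type) [Field k] [CharZero k] (𝒞 : (H : Type) → [Group H] → Prop)
    (h𝒞 : ClosedClass 𝒞) :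
    List.TFAE [
      ∀ (K : Type) [Field K] [Algebra k K], HilbField K → SplitSolvableC 𝒞 K,
      ∀ (K : Type) [Field K] [Algebra k K], HilbField K → SplitSolvableP 𝒞 K,
      ∀ n : ℕ, 0 < n → SplitSolvableC 𝒞 (FractionRing (MvPolynomial (Fin n) k)),
      GenA k 𝒞,
      ∀ (K : Type) [Field K] [Algebra k K], RegularSolvableC 𝒞 K] := by
  have h := tfae k h𝒞
  tfae_have 1 ↔ 2 := h.out 3 4
  tfae_have 1 ↔ 3 := h.out 3 5
  tfae_have 1 ↔ 4 := h.out 3 7
  tfae_have 1 ↔ 5 := h.out 3 0
  tfae_finish

end Pool.Agent.Results.MP_e9d732_al.PerfectReductionHilb
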